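import Pool.Agent.helper643_RW.App

set_option autoImplicit false

/-!
Two fixed computable trees defeat every finite list of enumeration procedures applied to the
solutions of an arbitrary colouring of numbers, or of a computable colouring of pairs.
-/

namespace Pool.Agent.Results.MP_7ef12a_lc.FiniteLists

/-- `T` is a computable infinite binary tree. -/
def IsTree (T : List Bool → Prop) : Prop :=
  ComputablePred T ∧ (∀ σ τ : List Bool, τ <+: σ → T σ → T τ) ∧
    ∀ n : ℕ, ∃ σ : List Bool, T σ ∧ σ.length = n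

/-- `G` is an infinite set which is homogeneous for the tree `T`. -/
def Solves (T : List Bool → Prop) (G : ℕ → Prop) : Prop :=
  {n | G n}.Infinite ∧ ∃ b : Bool, ∀ k : ℕ, ∃ σ : List Bool, T σ ∧ σ.length = k ∧
    ∀ i < k, G i → σ.getD i false = b

/-- The set enumerated from `H` with the help of the set `V` of pairs `(σ, n)`: it contains `n`
if some initial segment `σ` of `H` has `(σ, n)` in `V`. -/
def EnumFrom (V : List Bool × ℕ → Prop) (H : ℕ → Bool) (n : ℕ) : Prop :=
  ∃ k : ℕ, V ((List.range k).map H, n)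

/-- `D c H` says that `H` is a solution with colour `c` of some fixed instance, which is either
an arbitrary colouring of the natural numbers or a computable colouring of pairs. -/
def IsInstance (D : Bool → (ℕ → Bool) → Prop) : Prop :=
  (∃ f : ℕ → Bool, ∀ c H, D c H ↔ {n | H n = true}.Infinite ∧ ∀ x, H x = true → f x = c) ∨
  (∃ f : ℕ → ℕ → Bool, Computable₂ f ∧ ∀ c H, D c H ↔ {n | H n = true}.Infinite ∧
    ∀ x y, H x = true → H y = true → x < y → f x y = c)

theorem result : ∃ T : Bool → List Bool → Prop, (∀ c, IsTree (T c)) ∧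
    ∀ D : Bool → (ℕ → Bool) → Prop, IsInstance D → ∃ c : Bool,
      ∀ (r : ℕ) (V : Fin r → List Bool × ℕ → Prop), (∀ l, REPred (V l)) →
        ∃ H : ℕ → Bool, D c H ∧ ∀ l, ¬ Solves (T c) (EnumFrom (V l) H) := by
  classical
  obtain ⟨S, B, h⟩ := helper643_RW.exists_Con
  refine ⟨helper643_RW.TT S, fun c => ⟨helper643_RW.cp_TT h.comp c, h.TT_closed c, h.TT_inf c⟩, ?_⟩
  intro D hD
  -- the version in which the colour may depend on the list
  have key : ∀ (r : ℕ) (V : Fin r → List Bool × ℕ → Prop), (∀ l, REPred (V l)) →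
      ∃ (c : Bool) (H : ℕ → Bool), D c H ∧
        ∀ l, ¬ Solves (helper643_RW.TT S c) (EnumFrom (V l) H) := by
    intro r V hV
    set W : ℕ → List Bool × ℕ → Prop := fun l => if hl : l < r then V ⟨l, hl⟩ else fun _ => False
      with hW
    have hWV : ∀ l : Fin r, W l = V l := by
      intro l
      simp [hW]
    have hWre : ∀ l < r, REPred (W l) := by
      intro l hl
      have := hV ⟨l, hl⟩
      rw [← hWV] at this
      exact this
    rcases hD with ⟨f, hf⟩ | ⟨f, hfc, hf⟩
    · obtain ⟨c, H, h1, h2⟩ := h.rt1 f r W hWre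
      refine ⟨c, H, (hf c H).2 h1, fun l hs => h2 l l.2 ?_⟩
      rw [hWV]
      exact hs
    · obtain ⟨c, H, h1, h2⟩ := h.rt2 f hfc r W hWre
      refine ⟨c, H, (hf c H).2 h1, fun l hs => h2 l l.2 ?_⟩
      rw [hWV]
      exact hs
  by_contra hno
  push Not at hno
  obtain ⟨r0, V0, hV0, h0⟩ := hno false
  obtain ⟨r1, V1, hV1, h1⟩ := hno true
  obtain ⟨c, H, hH, hl⟩ := key (r0 + r1) (Fin.append V0 V1) (by
    intro l
    refine Fin.addCases (fun i => ?_) (fun i => ?_) l
    · rw [Fin.append_left]; exact hV0 i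
    · rw [Fin.append_right]; exact hV1 i)
  cases c with
  | false =>
    obtain ⟨l, hs⟩ := h0 H hH
    refine hl (Fin.castAdd r1 l) ?_
    rw [Fin.append_left]
    exact hs
  | true =>
    obtain ⟨l, hs⟩ := h1 H hH
    refine hl (Fin.natAdd r0 l) ?_
    rw [Fin.append_right]
    exact hs

end Pool.Agent.Results.MP_7ef12a_lc.FiniteLists
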